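import Pool.Agent.H59.BGP.Main

set_option autoImplicit false

namespace Pool.Agent.H59.Kept.BooleanValuedEF

open Pool.Agent.H59.BGP Pool.Agent.H46.BorelPow

/-- **Consistency of the negated form of Q1, without any additional axiom.**
There are a nontrivial, `(ω, ∞)`-distributive complete Boolean algebra `𝔹` and a `𝔹`-valued set of
reals `X` such that the truth value of `X satisfies S₁(Ω, 𝒪^{ω-gp})` is `⊤` and the truth value of
`X satisfies S₁(Ω, Ω)` is `⊥`. -/
theorem result : ∃ (𝔹 : Type) (_ : CompleteBooleanAlgebra 𝔹), Nontrivial 𝔹 ∧ OmegaDistributive 𝔹 ∧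
    ∃ X : ℝ → 𝔹, bvS1Omega X (bvOmegaGroupable X) = ⊤ ∧ bvS1Omega X (bvOmegaSeq X) = ⊥ :=
  bv_main

end Pool.Agent.H59.Kept.BooleanValuedEF
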